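import Pool.Agent.W353.AB.Govern
import Pool.Agent.W353.AB.EC

/-!
# The edge of the L-series of an elliptic curve over all number fields of bounded degree

`K` is a number field and `E` an elliptic curve over `K`, for instance over `K = ℚ`.  For a number
field `F ⊇ K` and `d ∈ F^*` let `E_d / F` be the twist of `E` by the quadratic character of
`F(√d)/F`.  The analytic continuation of `L(E_d / F, s)` is not known in general, even for `K = ℚ` and
`d = 1`: the degree of `F` may be large and the extension `F / ℚ` not solvable.  The theorem is about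
all `F` of bounded degree and all `d` together: one finite Galois extension `M` of `K` controls all
zeros and poles on the line `Re s = 3/2`.
-/

set_option autoImplicit false
open Classical

namespace Pool.Agent.Results.MP_7ed9c3_nt.AllNumberFields

open NumberField IsDedekindDomain Filter Topology
open scoped TensorProduct

/-- The quadratic twist `y² = x³ - 27 d² c₄(E) x - 54 d³ c₆(E)` of `E` by `d`. -/
noncomputable def twist {F : Type} [Field F] (E : WeierstrassCurve F) (d : F) :
    WeierstrassCurve F where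
  a₁ := 0
  a₂ := 0
  a₃ := 0
  a₄ := -27 * d ^ 2 * E.c₄
  a₆ := -54 * d ^ 3 * E.c₆

/-- `V v` is, for every `v`, an integral model of `E` with discriminant minimal at `v`. -/
def MinimalModels {F : Type} [Field F] [NumberField F] (E : WeierstrassCurve F)
    (V : HeightOneSpectrum (𝓞 F) → WeierstrassCurve (𝓞 F)) : Prop :=
  ∀ v : HeightOneSpectrum (𝓞 F),
    (∃ C : WeierstrassCurve.VariableChange F, C • E = (V v).map (algebraMap (𝓞 F) F)) ∧
    ∀ W : WeierstrassCurve (𝓞 F),
      (∃ C : WeierstrassCurve.VariableChange F, C • E = W.map (algebraMap (𝓞 F) F)) →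
        ∀ n : ℕ, (V v).Δ ∈ v.asIdeal ^ n → W.Δ ∈ v.asIdeal ^ n

/-- The Euler product of the problem, computed from the reductions of the models `V v`. -/
noncomputable def LSeries {F : Type} [Field F] [NumberField F]
    (V : HeightOneSpectrum (𝓞 F) → WeierstrassCurve (𝓞 F)) (s : ℂ) : ℂ :=
  ∏' v : HeightOneSpectrum (𝓞 F),
    (1 - ((((Ideal.absNorm v.asIdeal : ℕ) : ℤ) -
          ((Nat.card {p : (𝓞 F ⧸ v.asIdeal) × (𝓞 F ⧸ v.asIdeal) //
            p.2 ^ 2 + Ideal.Quotient.mk v.asIdeal (V v).a₁ * p.1 * p.2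
              + Ideal.Quotient.mk v.asIdeal (V v).a₃ * p.2
            = p.1 ^ 3 + Ideal.Quotient.mk v.asIdeal (V v).a₂ * p.1 ^ 2
              + Ideal.Quotient.mk v.asIdeal (V v).a₄ * p.1
              + Ideal.Quotient.mk v.asIdeal (V v).a₆} : ℕ) : ℤ) : ℤ) : ℂ)
          * ((Ideal.absNorm v.asIdeal : ℕ) : ℂ) ^ (-s)
      + (if (V v).Δ ∈ v.asIdeal then (0 : ℂ) else 1)
          * ((Ideal.absNorm v.asIdeal : ℕ) : ℂ) ^ (1 - 2 * s))⁻¹

section
variable {K : Type} [Field K] [NumberField K]

/-- A twist `E_d` over the number field `F`, `K ⊆ F`, with its minimal models. -/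
structure TwistOver (E : WeierstrassCurve K) (F : IntermediateField K (AlgebraicClosure K))
    [NumberField F] where
  d : 𝓞 F
  d_ne_zero : d ≠ 0
  V : HeightOneSpectrum (𝓞 F) → WeierstrassCurve (𝓞 F)
  minimal : MinimalModels (twist (E.map (algebraMap K F)) (d : F)) V

/-- `log |L(E_d / F, 3/2 + iτ + ε)| / log(1/ε)`. -/
noncomputable def TwistOver.size {E : WeierstrassCurve K}
    {F : IntermediateField K (AlgebraicClosure K)} [NumberField F] (X : TwistOver E F)
    (τ ε : ℝ) : ℝ :=
  Real.log ‖LSeries X.V (3 / 2 + τ * Complex.I + ε)‖ / Real.log (1 / ε)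

/-- `L(E_d / F, s)` has a meromorphic continuation to a neighbourhood of `3/2 + iτ`, of order `m` at
`3/2 + iτ`. -/
def TwistOver.HasOrder {E : WeierstrassCurve K}
    {F : IntermediateField K (AlgebraicClosure K)} [NumberField F] (X : TwistOver E F)
    (τ : ℝ) (m : ℤ) : Prop :=
  ∃ Λ : ℂ → ℂ, MeromorphicAt Λ (3 / 2 + τ * Complex.I) ∧
    (∀ᶠ s in 𝓝 ((3 / 2 : ℂ) + τ * Complex.I), (3 / 2 : ℝ) < s.re → Λ s = LSeries X.V s) ∧
    meromorphicOrderAt Λ (3 / 2 + τ * Complex.I) = m

/-- `d` as an element of the algebraic closure of `K`. -/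
noncomputable def inj {F : IntermediateField K (AlgebraicClosure K)} (d : 𝓞 F) : AlgebraicClosure K :=
  ((d : F) : AlgebraicClosure K)

/-- `d ∈ F` and `e ∈ F₀` (`F₀ = F ∩ M` below) are related: either `d e` is a square in `F` and
`√e ∈ M`, or `√d ∉ F M` and `√e ∉ M`. -/
def Related (M : IntermediateField K (AlgebraicClosure K))
    {F F₀ : IntermediateField K (AlgebraicClosure K)} (d : 𝓞 F) (e : 𝓞 F₀) : Prop :=
  ((∃ u ∈ F, u ^ 2 = inj d * inj e) ∧ ∃ t ∈ M, t ^ 2 = inj e) ∨
    ((∀ y ∈ F ⊔ M, y ^ 2 ≠ inj d) ∧ ∀ y ∈ M, y ^ 2 ≠ inj e)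

/-- `M` and the finite set `Θ` of heights govern the zeros and poles on the line `Re s = 3/2` of
`L(E_d / F, s)` for all `(F, d)` in the class `P`.

1. If `√d ∉ F M`, or if `τ ∉ Θ`, then there are arbitrarily small `ε > 0` with
`|log |L(E_d / F, 3/2 + iτ + ε)| / log(1/ε)| < 1/k`, and any meromorphic continuation has order `0` at
`3/2 + iτ`: it is holomorphic and different from zero there, up to its value at the point.

2. If `e` over `F₀ = F ∩ M` is related to `d`, then there are arbitrarily small `ε > 0` for which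
the values of `log |L(3/2 + iτ + ε)| / log(1/ε)` for `E_d / F` and `E_e / F₀` differ by less than
`1/k`, and any continuations for `E_d / F` and `E_e / F₀` have the same order at `3/2 + iτ`.

3. There is a list of at most `2^(2([M : K] + 1))` twists `e` over subfields of `M` such that
every twist `d` over a number field `F ⊇ K` is related to a member of the list over `F ∩ M`. -/
def Governs (E : WeierstrassCurve K) (k : ℕ) (M : IntermediateField K (AlgebraicClosure K))
    (Θ : Finset ℝ) (P : ∀ (F : IntermediateField K (AlgebraicClosure K)) [NumberField F],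
      𝓞 F → Prop) : Prop :=
  (∀ (F : IntermediateField K (AlgebraicClosure K)) [NumberField F] (X : TwistOver E F),
    P F X.d → ∀ τ : ℝ, (τ ∉ Θ ∨ ∀ y ∈ F ⊔ M, y ^ 2 ≠ inj X.d) →
      (∃ᶠ ε : ℝ in 𝓝[>] 0, |X.size τ ε| < 1 / k) ∧ ∀ m : ℤ, X.HasOrder τ m → m = 0) ∧
  (∀ (F F₀ : IntermediateField K (AlgebraicClosure K)) [NumberField F] [NumberField F₀],
    F₀ = F ⊓ M → ∀ (X : TwistOver E F) (Y : TwistOver E F₀), P F X.d → P F₀ Y.d →
      Related M X.d Y.d → ∀ τ : ℝ,
      (∃ᶠ ε : ℝ in 𝓝[>] 0, |X.size τ ε - Y.size τ ε| < 1 / k) ∧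
      ∀ m m' : ℤ, X.HasOrder τ m → Y.HasOrder τ m' → m = m') ∧
  ∃ (l : ℕ) (G : Fin l → IntermediateField K (AlgebraicClosure K)) (e : ∀ a, 𝓞 (G a)),
    l ≤ 2 ^ (2 * (Module.finrank K M + 1)) ∧
    (∀ a, G a ≤ M ∧ NumberField (G a) ∧ e a ≠ 0) ∧
    ∀ (F : IntermediateField K (AlgebraicClosure K)) [NumberField F] (d : 𝓞 F),
      d ≠ 0 → ∃ a, G a = F ⊓ M ∧ Related M d (e a)

end

/-- The intertwining number of the representation of `Gal(K̄/K)` induced from the quadratic character
of `F(√D)/F`: the number of the simple factors of `F ⊗_K F` in which `D ⊗ D` is a square. -/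
noncomputable def intertwining (K F : Type) [Field K] [Field F] [Algebra K F] (D : F) : ℕ :=
  Nat.card {m : MaximalSpectrum (F ⊗[K] F) // IsSquare (Ideal.Quotient.mk m.asIdeal (D ⊗ₜ D))}

open Pool.Agent.W353.TP Pool.Agent.W353.AB in
/-- **One finite extension governs the zeros and poles at the edge over all number fields of bounded
degree.**  Let `E` be an elliptic curve over the number field `K` and `k ≥ 1`.  Let `P` be a class of
pairs `(F, d)`, `F` a number field containing `K`, `d ∈ 𝓞_F`, such that for every pair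
`[F : K] ≤ n` or the representation of `Gal(K̄/K)` induced from the quadratic character of `F(√d)/F`
has intertwining number at most `n`; for instance all `(F, d)` with `[F : K] ≤ n`.  Then there are a
finite Galois extension `M` of `K` and a set `Θ` of at most `8 n k²` real numbers that govern the
zeros and poles for all pairs in `P`.  If `[F : K] ≤ m` for all pairs in `P`, then the degree of `M`
is at most `((4 m)!)^(8 n k²)`. -/
theorem result (K : Type) [Field K] [NumberField K] (E : WeierstrassCurve K) (hE : E.IsElliptic)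
    (n k : ℕ) (hk : 1 ≤ k)
    (P : ∀ (F : IntermediateField K (AlgebraicClosure K)) [NumberField F], 𝓞 F → Prop)
    (hP : ∀ (F : IntermediateField K (AlgebraicClosure K)) [NumberField F] (d : 𝓞 F),
      P F d → Module.finrank K F ≤ n ∨ intertwining K F (d : F) ≤ n) (m : ℕ) :
    ∃ (M : IntermediateField K (AlgebraicClosure K)) (Θ : Finset ℝ),
      FiniteDimensional K M ∧ IsGalois K M ∧ Θ.card ≤ 8 * n * k ^ 2 ∧
      ((∀ (F : IntermediateField K (AlgebraicClosure K)) [NumberField F] (d : 𝓞 F),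
        P F d → Module.finrank K F ≤ m) →
          Module.finrank K M ≤ (4 * m).factorial ^ (8 * n * k ^ 2)) ∧
      Governs E k M Θ P := by
  obtain ⟨l, p, q, hl, hp, hq, hD⟩ := Pool.Agent.H341R2.EC.exists_integral E hE
  have hNb : ((2 : ℕ) : ℝ) = ∑ j ∈ (syE p q).P, (syE p q).b j := by
    have e1 : ∑ j ∈ (syE p q).P, (syE p q).b j = ∑ _j ∈ ({()} : Finset Unit), (2 : ℝ) := rfl
    rw [e1, Finset.sum_singleton]
    norm_num
  have hDD : ∀ {R : Type} [CommMonoid R] (d : Fin (syE p q).r → R) (j : Unit),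
      (syE p q).D d j = d (0 : Fin 1) := by
    intro R _ d j
    exact Finset.prod_singleton _ _
  have hpr : ∀ {F : IntermediateField K (AlgebraicClosure K)} (d : Fin (syE p q).r → 𝓞 F)
      (j : Unit), prA (syE p q) d j = inj (d (0 : Fin 1)) := by
    intro F d j
    unfold prA inj
    rw [hDD]
  obtain ⟨M, Θ, hM1, hM2, hM3, hΘ, hdeg, hA, hB⟩ := govern (syE p q) n k m 2 hk hNb
    (fun F _ d => P F (d (0 : Fin 1)))
    (by
      intro F _ d h
      rcases hP F _ h with h1 | h1
      · exact Bd_of_finrank (𝒮 := syE p q) h1 d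
      · intro j _
        rw [hDD d j]
        exact h1)
  have e8 : 2 * n * (k * 2) ^ 2 = 8 * n * k ^ 2 := by ring
  rw [e8] at hΘ hdeg
  have hsz : ∀ (F : IntermediateField K (AlgebraicClosure K)) [NumberField F]
      (X : TwistOver E F) (τ : ℝ),
      (∀ᶠ ε : ℝ in 𝓝[>] 0, LSeries X.V (3 / 2 + τ * Complex.I + ε) ≠ 0) ∧
      (syE p q).IsSize (F := F) (fun _ => X.d) τ (X.size τ) := by
    intro F _ X τ
    exact size_E E hl hp hq hD X.d_ne_zero X.V X.minimal τ
  have hlimo : ∀ (F : IntermediateField K (AlgebraicClosure K)) [NumberField F]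
      (X : TwistOver E F) (τ : ℝ) (m : ℤ), X.HasOrder τ m →
      Tendsto (X.size τ) (𝓝[>] 0) (𝓝 (-(m : ℝ))) := by
    intro F _ X τ m hm
    obtain ⟨Λ, h1, h2, hm⟩ := hm
    obtain ⟨m', h3', h4⟩ := Pool.Agent.H126T.order_limit h1
      (fun ε : ℝ => LSeries X.V (3 / 2 + τ * Complex.I + ε)) (hsz F X τ).1 (by
        filter_upwards [(Pool.Agent.H341R2.path_tendsto' (3 / 2 + τ * Complex.I)).eventually h2,
          self_mem_nhdsWithin] with ε h1 h2
        have hε : (0 : ℝ) < ε := h2
        exact h1 (by simp; linarith))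
    rw [hm] at h3'
    have h5 : m = m' := by exact_mod_cast h3'
    subst h5
    exact h4
  refine ⟨M, Θ, hM1, hM2, hΘ, fun h => ?_, fun F _ X hX τ hcond => ?_,
    fun F F₀ _ _ hF₀ X Y hX hY hR τ => ?_, ?_⟩
  · have h1 := hdeg fun F _ d hd => h F _ hd
    have h2 : 4 ^ (syE p q).r = 4 := pow_one 4
    rw [h2] at h1
    exact h1
  · obtain ⟨h1, h2⟩ := hA F (fun _ => X.d) (fun _ => X.d_ne_zero) τ _ (hsz F X τ).2 hX
      (by
        rcases hcond with h | h
        · exact Or.inl h
        · refine Or.inr fun j _ => ?_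
          rw [hpr]
          exact h)
    refine ⟨h1, fun m hm => ?_⟩
    refine int_eq_of_abs hk (h2 _ (hlimo F X τ m hm)) (Or.inr ?_)
    push_cast
    ring
  · obtain ⟨h1, h2⟩ := hB F F₀ hF₀ (fun _ => X.d) (fun _ => Y.d) (fun _ => X.d_ne_zero)
      (fun _ => Y.d_ne_zero) τ _ _ (hsz F X τ).2 (hsz F₀ Y τ).2 hX hY
      (by
        intro j _
        rw [hpr, hpr]
        exact hR)
    refine ⟨h1, fun m m' hm hm' => ?_⟩
    refine int_eq_of_abs hk (h2 _ _ (hlimo F X τ m hm) (hlimo F₀ Y τ m' hm')) (Or.inr ?_)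
    ring
  · obtain ⟨l, s, hl, hs⟩ := finite_list (syE p q) M
    refine ⟨l, fun a => (s a).G, fun a => (s a).e (0 : Fin 1), hl,
      fun a => ⟨(s a).le, (s a).nf, (s a).he _⟩, fun F _ d hd => ?_⟩
    obtain ⟨a, ha, hR⟩ := hs F (fun _ => d) (fun _ => hd)
    refine ⟨a, ha, ?_⟩
    have h1 := hR () (Finset.mem_singleton_self _)
    rw [hpr, hpr] at h1
    exact h1

end Pool.Agent.Results.MP_7ed9c3_nt.AllNumberFields
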