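import Pool.Agent.W353.SE.Orb
import Pool.Agent.W353.SE.Defs

/-!
# Base change of elliptic curves with the Sato–Tate law: the edge of the L-series

`K` is a number field and `E` an elliptic curve over `K` whose normalised traces `a_v / √q_v` have the
Sato–Tate distribution over `K` (this is known for curves without complex multiplication if `K` is
totally real, for example `K = ℚ`).  For a number field `F` containing `K` nothing is known in general
about the continuation of `L(E/F, s)`.  The theorem bounds the orders, at the points `3/2 + iτ` of the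
line `Re s = 3/2` bounding the half-plane of absolute convergence, of all local meromorphic
continuations.  They are zero if the Galois group of the closure of `F/K` acts doubly transitively on
the embeddings of `F`, for `τ ≠ 0` also if it has rank 3.
-/

set_option autoImplicit false

namespace Pool.Agent.Results.MP_7ed9c3_nt.SatoTateBaseChange

open NumberField IsDedekindDomain Filter Topology
open Pool.Agent.W353.ST (HasMean)
open Pool.Agent.W353.SE (satoTateIntegral)

section
variable {F : Type} [Field F] [NumberField F]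

/-- `V v` is, for every finite place `v`, an integral model of `E` with discriminant minimal at
`v`. -/
def MinimalModels (E : WeierstrassCurve F)
    (V : HeightOneSpectrum (𝓞 F) → WeierstrassCurve (𝓞 F)) : Prop :=
  ∀ v : HeightOneSpectrum (𝓞 F),
    (∃ C : WeierstrassCurve.VariableChange F, C • E = (V v).map (algebraMap (𝓞 F) F)) ∧
    ∀ W : WeierstrassCurve (𝓞 F),
      (∃ C : WeierstrassCurve.VariableChange F, C • E = W.map (algebraMap (𝓞 F) F)) →
        ∀ n : ℕ, (V v).Δ ∈ v.asIdeal ^ n → W.Δ ∈ v.asIdeal ^ n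

/-- `a_v`: the number of elements of the residue field minus the number of affine points of the
reduction of the model `V v`. -/
noncomputable def trace (V : HeightOneSpectrum (𝓞 F) → WeierstrassCurve (𝓞 F))
    (v : HeightOneSpectrum (𝓞 F)) : ℤ :=
  ((Ideal.absNorm v.asIdeal : ℕ) : ℤ) -
    ((Nat.card {p : (𝓞 F ⧸ v.asIdeal) × (𝓞 F ⧸ v.asIdeal) //
      p.2 ^ 2 + Ideal.Quotient.mk v.asIdeal (V v).a₁ * p.1 * p.2
        + Ideal.Quotient.mk v.asIdeal (V v).a₃ * p.2
      = p.1 ^ 3 + Ideal.Quotient.mk v.asIdeal (V v).a₂ * p.1 ^ 2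
        + Ideal.Quotient.mk v.asIdeal (V v).a₄ * p.1
        + Ideal.Quotient.mk v.asIdeal (V v).a₆} : ℕ) : ℤ)

open Classical in
/-- The Euler product of the problem. -/
noncomputable def LSeries (V : HeightOneSpectrum (𝓞 F) → WeierstrassCurve (𝓞 F)) (s : ℂ) : ℂ :=
  ∏' v : HeightOneSpectrum (𝓞 F),
    (1 - (trace V v : ℂ) * ((Ideal.absNorm v.asIdeal : ℕ) : ℂ) ^ (-s)
      + (if (V v).Δ ∈ v.asIdeal then (0 : ℂ) else 1)
          * ((Ideal.absNorm v.asIdeal : ℕ) : ℂ) ^ (1 - 2 * s))⁻¹

/-- `log |L(3/2 + iτ + ε)| / log(1/ε)`. -/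
noncomputable def size (V : HeightOneSpectrum (𝓞 F) → WeierstrassCurve (𝓞 F)) (τ ε : ℝ) : ℝ :=
  Real.log ‖LSeries V (3 / 2 + τ * Complex.I + ε)‖ / Real.log (1 / ε)

/-- The `L`-series has a meromorphic continuation to a neighbourhood of `3/2 + iτ`, of order `m` at
`3/2 + iτ`. -/
def HasOrder (V : HeightOneSpectrum (𝓞 F) → WeierstrassCurve (𝓞 F)) (τ : ℝ) (m : ℤ) : Prop :=
  ∃ Λ : ℂ → ℂ, MeromorphicAt Λ (3 / 2 + τ * Complex.I) ∧
    (∀ᶠ s in 𝓝 ((3 / 2 : ℂ) + τ * Complex.I), (3 / 2 : ℝ) < s.re → Λ s = LSeries V s) ∧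
    meromorphicOrderAt Λ (3 / 2 + τ * Complex.I) = m

/-- **The Sato–Tate law**, in the sense of the analytic density: for every continuous function `f` the
mean value of `f(a_v / √q_v)` over the primes `v` is the integral of `f` with respect to the
Sato–Tate measure. -/
def SatoTate (V : HeightOneSpectrum (𝓞 F) → WeierstrassCurve (𝓞 F)) : Prop :=
  ∀ f : ℝ → ℝ, Continuous f →
    HasMean (fun v => (f ((trace V v : ℝ) / Real.sqrt (Ideal.absNorm v.asIdeal : ℝ)) : ℂ))
      (satoTateIntegral f : ℂ)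

end

/-- The permutation `i ↦ σ ∘ i` of the embeddings over `K` of `F` into the algebraic closure of `K`,
for `σ` in the absolute Galois group of `K`. -/
noncomputable def perm (K F : Type) [Field K] [Field F] [Algebra K F] :
    Gal(AlgebraicClosure K/K) →* Equiv.Perm (F →ₐ[K] AlgebraicClosure K) where
  toFun σ :=
    { toFun := fun i => (σ : AlgebraicClosure K →ₐ[K] AlgebraicClosure K).comp i
      invFun := fun i => ((σ⁻¹ : Gal(AlgebraicClosure K/K)) :
        AlgebraicClosure K →ₐ[K] AlgebraicClosure K).comp i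
      left_inv := fun i => AlgHom.ext fun x => σ.symm_apply_apply (i x)
      right_inv := fun i => AlgHom.ext fun x => σ.apply_symm_apply (i x) }
  map_one' := Equiv.ext fun _ => AlgHom.ext fun _ => rfl
  map_mul' _ _ := Equiv.ext fun _ => AlgHom.ext fun _ => rfl

/-- The number of the orbits of the absolute Galois group of `K` on the pairs of embeddings over `K`
of `F` into the algebraic closure of `K` (the rank of the permutation group). -/
noncomputable def rank (K F : Type) [Field K] [Field F] [Algebra K F] : ℕ :=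
  Nat.card (Quot fun p q : (F →ₐ[K] AlgebraicClosure K) × (F →ₐ[K] AlgebraicClosure K) =>
    ∃ σ : Gal(AlgebraicClosure K/K), perm K F σ p.1 = q.1 ∧ perm K F σ p.2 = q.2)

/-- The mean value of `(∑ c_k fix_k)²`, where `fix_k` is the number of the embeddings of `F k` fixed by
`σ`, over the group of all families of permutations `(perm K (F k) σ)_k`. -/
noncomputable def meanSq (K : Type) [Field K] {n : ℕ} (F : Fin n → Type) [∀ k, Field (F k)]
    [∀ k, Algebra K (F k)] (c : Fin n → ℝ) : ℝ :=
  (Nat.card (MonoidHom.pi fun k => perm K (F k)).range : ℝ)⁻¹ *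
    ∑ᶠ g : (MonoidHom.pi fun k => perm K (F k)).range,
      (∑ k, c k * (Nat.card {i : F k →ₐ[K] AlgebraicClosure K // g.1 k i = i} : ℝ)) ^ 2

open Classical in
/-- `1` for `τ = 0` and `1/2` for `τ ≠ 0`. -/
noncomputable def weight (τ : ℝ) : ℝ := if τ = 0 then 1 else 1 / 2

open Pool.Agent.W353.NF Pool.Agent.W353.AB Pool.Agent.W540.BE in
/-- **Base change of elliptic curves with the Sato–Tate law.**  Let `E` be an elliptic curve over the
number field `K` for which the Sato–Tate law over `K` holds, and `τ` a real number; put `w = 1` if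
`τ = 0` and `w = 1/2` if `τ ≠ 0`.

1. For number fields `F_1, …, F_n` containing `K` and real numbers `c_k` let `M` be the mean value of
`(∑ c_k fix_k)²`.  If `M > 0` there is `θ < 1` such that the absolute value of
`∑ c_k log|L(E/F_k, 3/2 + iτ + ε)| / log(1/ε)` is at most `θ √(w M)` for all small `ε > 0`.  If the
`L`-series have meromorphic continuations to neighbourhoods of `3/2 + iτ`, of orders `m_k`, then
`|∑ c_k m_k| < √(w M)`.

2. If `L(E/K, s)` has a meromorphic continuation to a neighbourhood of `3/2 + iτ`, its order there is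
zero.

3. Let `F` be a number field containing `K`, `[F : K] ≥ 2`, and `r` the rank of the group of the
permutations of the embeddings of `F` given by the absolute Galois group of `K`.  There is `θ < 1` such
that the values of `log|L(3/2 + iτ + ε)| / log(1/ε)` over `F` and over `K` differ by at most
`θ √(w (r - 1))` for all small `ε > 0`.  If `L(E/F, s)` has a meromorphic continuation to a
neighbourhood of `3/2 + iτ`, of order `m`, then `m² < w r`; if `L(E/K, s)` has one as well, then
`m² < w (r - 1)`.  So `m = 0` if the group is doubly transitive, and for `τ ≠ 0` if `r = 3`. -/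
theorem result (K : Type) [Field K] [NumberField K] (E : WeierstrassCurve K) (hE : E.IsElliptic)
    (V₀ : HeightOneSpectrum (𝓞 K) → WeierstrassCurve (𝓞 K)) (hV₀ : MinimalModels E V₀)
    (hST : SatoTate V₀) (τ : ℝ) :
    (∀ (n : ℕ) (F : Fin n → Type) [∀ k, Field (F k)] [∀ k, NumberField (F k)]
      [∀ k, Algebra K (F k)] (V : ∀ k, HeightOneSpectrum (𝓞 (F k)) → WeierstrassCurve (𝓞 (F k))),
      (∀ k, MinimalModels (E.map (algebraMap K (F k))) (V k)) → ∀ c : Fin n → ℝ,
      0 < meanSq K F c →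
      (∃ θ : ℝ, θ < 1 ∧ ∀ᶠ ε : ℝ in 𝓝[>] 0,
        |∑ k, c k * size (V k) τ ε| ≤ θ * Real.sqrt (weight τ * meanSq K F c)) ∧
      ∀ m : Fin n → ℤ, (∀ k, HasOrder (V k) τ (m k)) →
        |∑ k, c k * m k| < Real.sqrt (weight τ * meanSq K F c)) ∧
    (∀ m₀ : ℤ, HasOrder V₀ τ m₀ → m₀ = 0) ∧
    (∀ (F : Type) [Field F] [NumberField F] [Algebra K F]
      (V : HeightOneSpectrum (𝓞 F) → WeierstrassCurve (𝓞 F)),
      MinimalModels (E.map (algebraMap K F)) V → 2 ≤ Module.finrank K F →
      (∃ θ : ℝ, θ < 1 ∧ ∀ᶠ ε : ℝ in 𝓝[>] 0,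
        |size V τ ε - size V₀ τ ε| ≤ θ * Real.sqrt (weight τ * (rank K F - 1))) ∧
      ∀ m : ℤ, HasOrder V τ m →
        (m : ℝ) ^ 2 < weight τ * rank K F ∧
        ∀ m₀ : ℤ, HasOrder V₀ τ m₀ →
          (m : ℝ) ^ 2 < weight τ * (rank K F - 1) ∧
          ((∀ i j i' j' : F →ₐ[K] AlgebraicClosure K, i ≠ j → i' ≠ j' →
            ∃ σ : Gal(AlgebraicClosure K/K), perm K F σ i = i' ∧ perm K F σ j = j') → m = 0) ∧
          (τ ≠ 0 → rank K F = 3 → m = 0)) := by
  classical
  obtain ⟨l, p, q, hl, hp, hq, hD⟩ := Pool.Agent.H341R2.EC.exists_integral E hE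
  choose σ hσ using exists_isFrob (F := K)
  have hw : weight τ = Pool.Agent.W353.SE.wt τ := by
    unfold weight Pool.Agent.W353.SE.wt
    rfl
  have hw1 : weight τ ≤ 1 := by
    unfold weight
    split_ifs <;> norm_num
  have hw0 : 0 < weight τ := by
    rw [hw]
    exact Pool.Agent.W353.SE.wt_pos τ
  have hlaw := fun f hf => Pool.Agent.W353.SE.law_min E hl hp hq hD V₀ hV₀ hST f hf
  have hsz : ∀ (F : Type) [Field F] [NumberField F] [Algebra K F]
      (V : HeightOneSpectrum (𝓞 F) → WeierstrassCurve (𝓞 F)),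
      MinimalModels (E.map (algebraMap K F)) V →
      (∀ᶠ ε : ℝ in 𝓝[>] 0, LSeries V (3 / 2 + τ * Complex.I + ε) ≠ 0) ∧
      (syE p q).IsSize (F := F) (fun _ => 1) τ (size V τ) := by
    intro F _ _ _ V hV
    exact size_EF E hl hp hq hD V hV τ
  have hlim : ∀ (F : Type) [Field F] [NumberField F] [Algebra K F]
      (V : HeightOneSpectrum (𝓞 F) → WeierstrassCurve (𝓞 F)),
      MinimalModels (E.map (algebraMap K F)) V → ∀ m : ℤ, HasOrder V τ m →
      Tendsto (size V τ) (𝓝[>] 0) (𝓝 (-(m : ℝ))) := by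
    intro F _ _ _ V hV m hm
    obtain ⟨Λ, h1, h2, h3⟩ := hm
    exact lim_order (hsz F V hV).1 h1 h2 h3
  have hfin : ∀ (F : Type) [Field F] [NumberField F] [Algebra K F]
      (V : HeightOneSpectrum (𝓞 F) → WeierstrassCurve (𝓞 F)),
      MinimalModels (E.map (algebraMap K F)) V →
      SzH (TT (syE p q)) (fun v => (fixn K F (σ v) : ℝ) * cz τ v) (size V τ) := by
    intro F _ _ _ V hV
    exact size_fix (syE p q) (syE_real p q) σ hσ (hsz F V hV).2
  have hbd : ∀ (F : Type) [Field F] [NumberField F] [Algebra K F]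
      (v : HeightOneSpectrum (𝓞 K)),
      |(fixn K F (σ v) : ℝ) * cz τ v| ≤ Module.finrank ℚ F := by
    intro F _ _ _ v
    rw [abs_mul, abs_of_nonneg (Nat.cast_nonneg _)]
    calc (fixn K F (σ v) : ℝ) * |cz τ v| ≤ Module.finrank ℚ F * 1 :=
          mul_le_mul (fixn_le _) (abs_cz _ _) (abs_nonneg _) (by positivity)
      _ = Module.finrank ℚ F := mul_one _
  have hV₀' : MinimalModels (E.map (algebraMap K K)) V₀ := by
    have : E.map (algebraMap K K) = E := E.map_id
    rw [this]
    exact hV₀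
  -- limits
  have hle : ∀ {X : ℝ → ℝ} {x M : ℝ}, 0 < M → Tendsto X (𝓝[>] 0) (𝓝 x) →
      (∃ θ : ℝ, θ < 1 ∧ ∀ᶠ ε : ℝ in 𝓝[>] 0, |X ε| ≤ θ * Real.sqrt (weight τ * M)) →
      |x| < Real.sqrt (weight τ * M) := by
    intro X x M hM hX hθ
    obtain ⟨θ, h1, h2⟩ := hθ
    have h3 := le_of_tendsto hX.abs h2
    have h4 : 0 < Real.sqrt (weight τ * M) := Real.sqrt_pos.2 (mul_pos hw0 hM)
    nlinarith
  have hsqlt : ∀ {x M : ℝ}, 0 < M → |x| < Real.sqrt (weight τ * M) → x ^ 2 < weight τ * M := by
    intro x M hM h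
    have h1 := mul_pos hw0 hM
    rw [← sq_abs, ← Real.sq_sqrt h1.le]
    exact pow_lt_pow_left₀ h (abs_nonneg _) two_ne_zero
  have hint : ∀ m : ℤ, (m : ℝ) ^ 2 < 1 → m = 0 := by
    intro m h
    have h1 : m ^ 2 < 1 := by exact_mod_cast h
    nlinarith [sq_nonneg m, sq_abs m, abs_nonneg m, Int.abs_lt_one_iff (a := m),
      (sq_lt_one_iff_abs_lt_one m).1 h1]
  -- one field
  have hone : ∀ (F : Type) [Field F] [NumberField F] [Algebra K F]
      (V : HeightOneSpectrum (𝓞 F) → WeierstrassCurve (𝓞 F)),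
      MinimalModels (E.map (algebraMap K F)) V → ∀ m : ℤ, HasOrder V τ m →
      (m : ℝ) ^ 2 < weight τ * rank K F := by
    intro F _ _ _ V hV m hm
    have hopen := ker_act_open K F
    have hfi : Finite (Pool.Agent.W401.Cheb.GK K ⧸ (act K F).ker) :=
      Subgroup.quotient_finite_of_isOpen _ hopen
    have h0 : (0 : ℝ) < rank K F := by
      exact_mod_cast Pool.Agent.W353.SE.pOrb_pos K F
    have h1 := Pool.Agent.W353.SE.base_core (act K F).ker hopen (fun g => (fixn K F g : ℝ))
      (fun g u hu => by rw [fixn_mul_ker K F g u hu]) (fun g ρ => by rw [fixn_conj])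
      (fun g => by rw [fixn_inv]) σ hlaw hσ τ (size V τ) (hfin F V hV) (by
        rw [Pool.Agent.W353.SE.avR_fix]
        exact h0)
    rw [Pool.Agent.W353.SE.avR_fix, ← hw] at h1
    have h2 := hle h0 (hlim F V hV m hm) h1
    rw [abs_neg] at h2
    exact hsqlt h0 h2
  have hzero : ∀ m₀ : ℤ, HasOrder V₀ τ m₀ → m₀ = 0 := by
    intro m₀ hm₀
    have h1 := hone K V₀ hV₀' m₀ hm₀
    have h2 : rank K K = 1 := by
      have e : ∀ i j : K →ₐ[K] AlgebraicClosure K, i = j := fun i j => Subsingleton.elim i j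
      unfold rank
      rw [Nat.card_eq_one_iff_unique]
      refine ⟨⟨fun a b => ?_⟩, ⟨Quot.mk _ (Algebra.ofId K _, Algebra.ofId K _)⟩⟩
      induction a using Quot.ind with
      | mk a =>
        induction b using Quot.ind with
        | mk b => exact congrArg _ (Prod.ext (e _ _) (e _ _))
    rw [h2, Nat.cast_one, mul_one] at h1
    exact hint m₀ (h1.trans_le hw1)
  refine ⟨fun n F _ _ _ V hV c hpos => ?_, hzero, fun F _ _ _ V hV hdeg => ?_⟩
  · set Φ := MonoidHom.pi fun k => act K (F k) with hΦ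
    have hmean : meanSq K F c = Pool.Agent.W353.L1.avR Φ.ker
        (fun q => (∑ k, c k * (fixn K (F k) q.out : ℝ)) ^ 2) :=
      (avR_ker Φ fun g =>
        (∑ k, c k * (Nat.card {i : F k →ₐ[K] AlgebraicClosure K // g k i = i} : ℝ)) ^ 2).symm
    have hopen : IsOpen (Φ.ker : Set (Pool.Agent.W401.Cheb.GK K)) := by
      have e : (Φ.ker : Set (Pool.Agent.W401.Cheb.GK K)) =
          ⋂ k, ((act K (F k)).ker : Set (Pool.Agent.W401.Cheb.GK K)) := by
        ext σ
        rw [SetLike.mem_coe, MonoidHom.mem_ker, Set.mem_iInter, funext_iff]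
        rfl
      rw [e]
      exact isOpen_iInter_of_finite fun k => ker_act_open K (F k)
    have hfi : Finite (Pool.Agent.W401.Cheb.GK K ⧸ Φ.ker) :=
      Subgroup.quotient_finite_of_isOpen _ hopen
    have hS := SzH.sum Finset.univ (fun k _ => hfin (F k) (V k) (hV k)) (abs_TT (syE p q))
      (B := fun k => (Module.finrank ℚ (F k) : ℝ)) (fun k _ v => hbd (F k) v) c
    have h1 := Pool.Agent.W353.SE.base_core Φ.ker hopen
      (fun g => ∑ k, c k * (fixn K (F k) g : ℝ))
      (fun g u hu => Finset.sum_congr rfl fun k _ => by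
        rw [fixn_mul_ker K (F k) g u (congrFun ((MonoidHom.mem_ker).1 hu) k)])
      (fun g ρ => Finset.sum_congr rfl fun k _ => by rw [fixn_conj])
      (fun g => Finset.sum_congr rfl fun k _ => by rw [fixn_inv]) σ hlaw hσ τ
      (fun ε => ∑ k, c k * size (V k) τ ε) (hS.congr (fun v => by
        rw [Finset.sum_mul]
        exact Finset.sum_congr rfl fun k _ => by ring) fun _ => rfl) (by
        rw [← hmean]
        exact hpos)
    rw [← hmean, ← hw] at h1
    refine ⟨h1, fun m hm => ?_⟩
    have h2 : Tendsto (fun ε : ℝ => ∑ k, c k * size (V k) τ ε) (𝓝[>] 0)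
        (𝓝 (∑ k, c k * (-(m k : ℝ)))) :=
      tendsto_finsetSum _ fun k _ => (hlim (F k) (V k) (hV k) (m k) (hm k)).const_mul (c k)
    have h3 := hle hpos h2 h1
    have h6 : ∑ k, c k * (-(m k : ℝ)) = -∑ k, c k * (m k : ℝ) := by
      rw [← Finset.sum_neg_distrib]
      exact Finset.sum_congr rfl fun k _ => by ring
    rw [h6, abs_neg] at h3
    exact h3
  · have hopen := ker_act_open K F
    have hfi : Finite (Pool.Agent.W401.Cheb.GK K ⧸ (act K F).ker) :=
      Subgroup.quotient_finite_of_isOpen _ hopen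
    have hr1 : (0 : ℝ) < (rank K F : ℝ) - 1 := by
      have := Pool.Agent.W353.SE.pOrb_one_lt K F hdeg
      have e : (rank K F : ℝ) = Pool.Agent.W353.SE.pOrb K F := rfl
      rw [e]
      linarith
    have hb2 : ∀ v, |(-1 : ℝ) * ((fixn K K (σ v) : ℝ) * cz τ v)| ≤ Module.finrank ℚ K := by
      intro v
      rw [abs_mul, abs_neg, abs_one, one_mul]
      exact hbd K v
    have hS := ((hfin F V hV).add ((hfin K V₀ hV₀').const_mul (-1)) (abs_TT (syE p q))
      (hbd F) hb2).congr (Ψ' := fun v => ((fixn K F (σ v) : ℝ) - 1) * cz τ v)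
      (X' := fun ε => size V τ ε - size V₀ τ ε)
      (fun v => by rw [fixn_self]; push_cast; ring) (fun ε => by ring)
    have h1 := Pool.Agent.W353.SE.base_core (act K F).ker hopen (fun g => (fixn K F g : ℝ) - 1)
      (fun g u hu => by rw [fixn_mul_ker K F g u hu]) (fun g ρ => by rw [fixn_conj])
      (fun g => by rw [fixn_inv]) σ hlaw hσ τ _ hS (by
        rw [Pool.Agent.W353.SE.avR_sub]
        exact hr1)
    rw [Pool.Agent.W353.SE.avR_sub, ← hw] at h1
    refine ⟨h1, fun m hm => ⟨hone F V hV m hm, fun m₀ hm₀ => ?_⟩⟩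
    have h2 := (hlim F V hV m hm).sub (hlim K V₀ hV₀' m₀ hm₀)
    rw [hzero m₀ hm₀, Int.cast_zero, neg_zero, sub_zero] at h2
    have h3 := hle hr1 h2 h1
    rw [abs_neg] at h3
    have h4 := hsqlt hr1 h3
    refine ⟨h4, fun h2t => hint m ?_, fun hτ hr => hint m ?_⟩
    · have h5 : (rank K F : ℝ) ≤ 2 := by
        exact_mod_cast Pool.Agent.W353.SE.pOrb_le_two K F hdeg h2t
      refine h4.trans_le ?_
      nlinarith
    · have h5 : weight τ = 1 / 2 := by
        unfold weight
        rw [if_neg hτ]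
      rw [h5, hr] at h4
      refine h4.trans_le ?_
      norm_num

end Pool.Agent.Results.MP_7ed9c3_nt.SatoTateBaseChange
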