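import Pool.Agent.W353.SE.Hts

/-!
# All edge points of base changes of an elliptic curve together

`E` is an elliptic curve over the number field `K` for which the squares of the normalised traces have the
mean value one over `K`: the mean value of `a_v² / q_v` over the primes `v` of `K` is one.  (For `K = ℚ` this is
true for all `E`: modularity and Rankin–Selberg theory.)  For a number field `F` containing `K` nothing is
known in general about the continuation of `L(E/F, s)`.  The theorem bounds, with a bound depending only on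
the action of the Galois group on the embeddings of `F`, the sum over all points `3/2 + iτ` of the edge of
the half-plane of absolute convergence of the squares of the orders of all local meromorphic continuations.
-/

set_option autoImplicit false

namespace Pool.Agent.Results.MP_7ed9c3_nt.WholeEdge

open NumberField IsDedekindDomain Filter Topology
open Pool.Agent.W353.ST (HasMean)

section
variable {F : Type} [Field F] [NumberField F]

/-- `V v` is, for every finite place `v`, an integral model of `E` with discriminant minimal at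
`v`. -/
def MinimalModels (E : WeierstrassCurve F)
    (V : HeightOneSpectrum (𝓞 F) → WeierstrassCurve (𝓞 F)) : Prop :=
  ∀ v : HeightOneSpectrum (𝓞 F),
    (∃ C : WeierstrassCurve.VariableChange F, C • E = (V v).map (algebraMap (𝓞 F) F)) ∧
    ∀ W : WeierstrassCurve (𝓞 F),
      (∃ C : WeierstrassCurve.VariableChange F, C • E = W.map (algebraMap (𝓞 F) F)) →
        ∀ n : ℕ, (V v).Δ ∈ v.asIdeal ^ n → W.Δ ∈ v.asIdeal ^ n

/-- `a_v`: the number of elements of the residue field minus the number of affine points of the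
reduction of the model `V v`. -/
noncomputable def trace (V : HeightOneSpectrum (𝓞 F) → WeierstrassCurve (𝓞 F))
    (v : HeightOneSpectrum (𝓞 F)) : ℤ :=
  ((Ideal.absNorm v.asIdeal : ℕ) : ℤ) -
    ((Nat.card {p : (𝓞 F ⧸ v.asIdeal) × (𝓞 F ⧸ v.asIdeal) //
      p.2 ^ 2 + Ideal.Quotient.mk v.asIdeal (V v).a₁ * p.1 * p.2
        + Ideal.Quotient.mk v.asIdeal (V v).a₃ * p.2
      = p.1 ^ 3 + Ideal.Quotient.mk v.asIdeal (V v).a₂ * p.1 ^ 2
        + Ideal.Quotient.mk v.asIdeal (V v).a₄ * p.1
        + Ideal.Quotient.mk v.asIdeal (V v).a₆} : ℕ) : ℤ)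

open Classical in
/-- The Euler product of the problem. -/
noncomputable def LSeries (V : HeightOneSpectrum (𝓞 F) → WeierstrassCurve (𝓞 F)) (s : ℂ) : ℂ :=
  ∏' v : HeightOneSpectrum (𝓞 F),
    (1 - (trace V v : ℂ) * ((Ideal.absNorm v.asIdeal : ℕ) : ℂ) ^ (-s)
      + (if (V v).Δ ∈ v.asIdeal then (0 : ℂ) else 1)
          * ((Ideal.absNorm v.asIdeal : ℕ) : ℂ) ^ (1 - 2 * s))⁻¹

/-- `log |L(3/2 + iτ + ε)| / log(1/ε)`. -/
noncomputable def size (V : HeightOneSpectrum (𝓞 F) → WeierstrassCurve (𝓞 F)) (τ ε : ℝ) : ℝ :=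
  Real.log ‖LSeries V (3 / 2 + τ * Complex.I + ε)‖ / Real.log (1 / ε)

/-- The `L`-series has a meromorphic continuation to a neighbourhood of `3/2 + iτ`, of order `m` at
`3/2 + iτ`. -/
def HasOrder (V : HeightOneSpectrum (𝓞 F) → WeierstrassCurve (𝓞 F)) (τ : ℝ) (m : ℤ) : Prop :=
  ∃ Λ : ℂ → ℂ, MeromorphicAt Λ (3 / 2 + τ * Complex.I) ∧
    (∀ᶠ s in 𝓝 ((3 / 2 : ℂ) + τ * Complex.I), (3 / 2 : ℝ) < s.re → Λ s = LSeries V s) ∧
    meromorphicOrderAt Λ (3 / 2 + τ * Complex.I) = m

/-- The mean value of `a_v² / q_v` over the primes `v` (analytic density) is one. -/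
def MeanSquareOne (V : HeightOneSpectrum (𝓞 F) → WeierstrassCurve (𝓞 F)) : Prop :=
  HasMean (fun v => (((trace V v : ℝ) * (trace V v : ℝ) / (Ideal.absNorm v.asIdeal : ℝ) : ℝ) : ℂ)) 1

end

/-- The permutation `i ↦ σ ∘ i` of the embeddings over `K` of `F` into the algebraic closure of `K`,
for `σ` in the absolute Galois group of `K`. -/
noncomputable def perm (K F : Type) [Field K] [Field F] [Algebra K F] :
    Gal(AlgebraicClosure K/K) →* Equiv.Perm (F →ₐ[K] AlgebraicClosure K) where
  toFun σ :=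
    { toFun := fun i => (σ : AlgebraicClosure K →ₐ[K] AlgebraicClosure K).comp i
      invFun := fun i => ((σ⁻¹ : Gal(AlgebraicClosure K/K)) :
        AlgebraicClosure K →ₐ[K] AlgebraicClosure K).comp i
      left_inv := fun i => AlgHom.ext fun x => σ.symm_apply_apply (i x)
      right_inv := fun i => AlgHom.ext fun x => σ.apply_symm_apply (i x) }
  map_one' := Equiv.ext fun _ => AlgHom.ext fun _ => rfl
  map_mul' _ _ := Equiv.ext fun _ => AlgHom.ext fun _ => rfl

/-- The number of the orbits of the absolute Galois group of `K` on the pairs of embeddings over `K`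
of `F` into the algebraic closure of `K` (the rank of the permutation group). -/
noncomputable def rank (K F : Type) [Field K] [Field F] [Algebra K F] : ℕ :=
  Nat.card (Quot fun p q : (F →ₐ[K] AlgebraicClosure K) × (F →ₐ[K] AlgebraicClosure K) =>
    ∃ σ : Gal(AlgebraicClosure K/K), perm K F σ p.1 = q.1 ∧ perm K F σ p.2 = q.2)

/-- The mean value of `(∑ c_k fix_k)²`, where `fix_k` is the number of the embeddings of `F k` fixed by
`σ`, over the group of all families of permutations `(perm K (F k) σ)_k`. -/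
noncomputable def meanSq (K : Type) [Field K] {n : ℕ} (F : Fin n → Type) [∀ k, Field (F k)]
    [∀ k, Algebra K (F k)] (c : Fin n → ℝ) : ℝ :=
  (Nat.card (MonoidHom.pi fun k => perm K (F k)).range : ℝ)⁻¹ *
    ∑ᶠ g : (MonoidHom.pi fun k => perm K (F k)).range,
      (∑ k, c k * (Nat.card {i : F k →ₐ[K] AlgebraicClosure K // g.1 k i = i} : ℝ)) ^ 2

open Classical in
/-- `1` for `τ = 0` and `1/2` for `τ ≠ 0`. -/
noncomputable def weight (τ : ℝ) : ℝ := if τ = 0 then 1 else 1 / 2

open Pool.Agent.W353.NF Pool.Agent.W353.AB Pool.Agent.W540.BE Pool.Agent.W353.SE in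
/-- **All edge points together.**  Let `E` be an elliptic curve over the number field `K` such that
`a_v² / q_v` has the mean value one over the primes `v` of `K`, and let `τ_j ≥ 0` (`j` in a finite set) be
different real numbers; put `w(τ) = 1` if `τ = 0` and `w(τ) = 1/2` if `τ ≠ 0`.

1. Let `F_1, …, F_n` be number fields containing `K` and `c_{j,k}` real numbers; let `M_j` be the mean value of
`(∑_k c_{j,k} fix_k)²` and suppose that `M_j > 0` for all `j`.  With
`x_{j,k}(ε) = log|L(E/F_k, 3/2 + iτ_j + ε)| / log(1/ε)` one has for every `η > 0`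
`∑_j (∑_k c_{j,k} x_{j,k}(ε))² / (w(τ_j) M_j) ≤ 1 + η` for all small `ε > 0`.  If the `L`-series have
meromorphic continuations to neighbourhoods of the points `3/2 + iτ_j`, of orders `m_{j,k}`, then
`∑_j (∑_k c_{j,k} m_{j,k})² / (w(τ_j) M_j) ≤ 1`.

2. Let `F` be a number field containing `K`, `[F : K] ≥ 2`, and `r` the rank of the group of the
permutations of the embeddings of `F` given by the absolute Galois group of `K`.  For every `η > 0` and
small `ε > 0` the squares of the differences of `log|L(3/2 + iτ_j + ε)| / log(1/ε)` over `F` and over `K`,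
divided by `w(τ_j)`, have a sum of at most `r - 1 + η`.  If `L(E/F, s)` and `L(E/K, s)` have meromorphic
continuations to neighbourhoods of all the `3/2 + iτ_j`, of orders `m_j` and `μ_j`, then
`∑_j (m_j - μ_j)² / w(τ_j) ≤ r - 1`. -/
theorem result (K : Type) [Field K] [NumberField K] (E : WeierstrassCurve K) (hE : E.IsElliptic)
    (V₀ : HeightOneSpectrum (𝓞 K) → WeierstrassCurve (𝓞 K)) (hV₀ : MinimalModels E V₀)
    (hone : MeanSquareOne V₀) (J : Type) [Fintype J] (τ : J → ℝ) (h0 : ∀ j, 0 ≤ τ j)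
    (hinj : Function.Injective τ) :
    (∀ (n : ℕ) (F : Fin n → Type) [∀ k, Field (F k)] [∀ k, NumberField (F k)]
      [∀ k, Algebra K (F k)] (V : ∀ k, HeightOneSpectrum (𝓞 (F k)) → WeierstrassCurve (𝓞 (F k))),
      (∀ k, MinimalModels (E.map (algebraMap K (F k))) (V k)) → ∀ c : J → Fin n → ℝ,
      (∀ j, 0 < meanSq K F (c j)) →
      (∀ η : ℝ, 0 < η → ∀ᶠ ε : ℝ in 𝓝[>] 0,
        ∑ j, (∑ k, c j k * size (V k) (τ j) ε) ^ 2 / (weight (τ j) * meanSq K F (c j)) ≤ 1 + η) ∧
      ∀ m : J → Fin n → ℤ, (∀ j k, HasOrder (V k) (τ j) (m j k)) →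
        ∑ j, (∑ k, c j k * m j k) ^ 2 / (weight (τ j) * meanSq K F (c j)) ≤ 1) ∧
    (∀ (F : Type) [Field F] [NumberField F] [Algebra K F]
      (V : HeightOneSpectrum (𝓞 F) → WeierstrassCurve (𝓞 F)),
      MinimalModels (E.map (algebraMap K F)) V → 2 ≤ Module.finrank K F →
      (∀ η : ℝ, 0 < η → ∀ᶠ ε : ℝ in 𝓝[>] 0,
        ∑ j, (size V (τ j) ε - size V₀ (τ j) ε) ^ 2 / weight (τ j) ≤ (rank K F - 1) + η) ∧
      ∀ μ m : J → ℤ, (∀ j, HasOrder V₀ (τ j) (μ j)) → (∀ j, HasOrder V (τ j) (m j)) →
        ∑ j, ((m j : ℝ) - μ j) ^ 2 / weight (τ j) ≤ rank K F - 1) := by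
  classical
  obtain ⟨l, p, q, hl, hp, hq, hD⟩ := Pool.Agent.H341R2.EC.exists_integral E hE
  choose σ hσ using exists_isFrob (F := K)
  have hw : ∀ t, weight t = wt t := by
    intro t
    unfold weight wt
    rfl
  have hone' := corr_min (m := 1) hl hp hq hD hl hp hq hD hV₀ hV₀ (by
    rw [Complex.ofReal_one]
    exact hone)
  have hone'' : Tendsto (fun ε : ℝ => (Pool.Agent.W540.BE.EP (Pool.Agent.W540.BE.nm K) ε fun v =>
      (tE p q v).re ^ 2) / Pool.Agent.H341R2.lam ε) (𝓝[>] 0) (𝓝 1) := by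
    refine hone'.congr fun ε => ?_
    congr 2
    funext v
    exact (sq _).symm
  have hsz : ∀ (t : ℝ) (F : Type) [Field F] [NumberField F] [Algebra K F]
      (V : HeightOneSpectrum (𝓞 F) → WeierstrassCurve (𝓞 F)),
      MinimalModels (E.map (algebraMap K F)) V →
      (∀ᶠ ε : ℝ in 𝓝[>] 0, LSeries V (3 / 2 + t * Complex.I + ε) ≠ 0) ∧
      (syE p q).IsSize (F := F) (fun _ => 1) t (size V t) := by
    intro t F _ _ _ V hV
    exact size_EF E hl hp hq hD V hV t
  have hlim : ∀ (t : ℝ) (F : Type) [Field F] [NumberField F] [Algebra K F]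
      (V : HeightOneSpectrum (𝓞 F) → WeierstrassCurve (𝓞 F)),
      MinimalModels (E.map (algebraMap K F)) V → ∀ m : ℤ, HasOrder V t m →
      Tendsto (size V t) (𝓝[>] 0) (𝓝 (-(m : ℝ))) := by
    intro t F _ _ _ V hV m hm
    obtain ⟨Λ, h1, h2, h3⟩ := hm
    exact lim_order (hsz t F V hV).1 h1 h2 h3
  have hfin : ∀ (t : ℝ) (F : Type) [Field F] [NumberField F] [Algebra K F]
      (V : HeightOneSpectrum (𝓞 F) → WeierstrassCurve (𝓞 F)),
      MinimalModels (E.map (algebraMap K F)) V →
      SzH (TT (syE p q)) (fun v => (fixn K F (σ v) : ℝ) * cz t v) (size V t) := by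
    intro t F _ _ _ V hV
    exact size_fix (syE p q) (syE_real p q) σ hσ (hsz t F V hV).2
  have hbd : ∀ (t : ℝ) (F : Type) [Field F] [NumberField F] [Algebra K F]
      (v : HeightOneSpectrum (𝓞 K)),
      |(fixn K F (σ v) : ℝ) * cz t v| ≤ Module.finrank ℚ F := by
    intro t F _ _ _ v
    rw [abs_mul, abs_of_nonneg (Nat.cast_nonneg _)]
    calc (fixn K F (σ v) : ℝ) * |cz t v| ≤ Module.finrank ℚ F * 1 :=
          mul_le_mul (fixn_le _) (abs_cz _ _) (abs_nonneg _) (by positivity)
      _ = Module.finrank ℚ F := mul_one _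
  have hV₀' : MinimalModels (E.map (algebraMap K K)) V₀ := by
    have : E.map (algebraMap K K) = E := E.map_id
    rw [this]
    exact hV₀
  refine ⟨fun n F _ _ _ V hV c hpos => ?_, fun F _ _ _ V hV hdeg => ?_⟩
  · set Φ := MonoidHom.pi fun k => act K (F k) with hΦ
    have hmean : ∀ j, meanSq K F (c j) = Pool.Agent.W353.L1.avR Φ.ker
        (fun q => (∑ k, c j k * (fixn K (F k) q.out : ℝ)) ^ 2) := fun j =>
      (avR_ker Φ fun g => (∑ k, c j k *
        (Nat.card {i : F k →ₐ[K] AlgebraicClosure K // g k i = i} : ℝ)) ^ 2).symm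
    have hopen : IsOpen (Φ.ker : Set (Pool.Agent.W401.Cheb.GK K)) := by
      have e : (Φ.ker : Set (Pool.Agent.W401.Cheb.GK K)) =
          ⋂ k, ((act K (F k)).ker : Set (Pool.Agent.W401.Cheb.GK K)) := by
        ext σ
        rw [SetLike.mem_coe, MonoidHom.mem_ker, Set.mem_iInter, funext_iff]
        rfl
      rw [e]
      exact isOpen_iInter_of_finite fun k => ker_act_open K (F k)
    have hS : ∀ j, SzH (TT (syE p q))
        (fun v => (∑ k, c j k * (fixn K (F k) (σ v) : ℝ)) * cz (τ j) v)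
        (fun ε => ∑ k, c j k * size (V k) (τ j) ε) := by
      intro j
      have h1 := SzH.sum Finset.univ (fun k _ => hfin (τ j) (F k) (V k) (hV k))
        (abs_TT (syE p q)) (B := fun k => (Module.finrank ℚ (F k) : ℝ))
        (fun k _ v => hbd (τ j) (F k) v) (c j)
      exact h1.congr (fun v => by
        rw [Finset.sum_mul]
        exact Finset.sum_congr rfl fun k _ => by ring) fun _ => rfl
    have h1 := hts_main hone'' Φ.ker hopen (fun j g => ∑ k, c j k * (fixn K (F k) g : ℝ))
      (fun j g u hu => Finset.sum_congr rfl fun k _ => by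
        rw [fixn_mul_ker K (F k) g u (congrFun ((MonoidHom.mem_ker).1 hu) k)])
      (fun j g ρ => Finset.sum_congr rfl fun k _ => by rw [fixn_conj])
      (fun j g => Finset.sum_congr rfl fun k _ => by rw [fixn_inv]) σ hσ τ h0 hinj
      (fun j ε => ∑ k, c j k * size (V k) (τ j) ε) hS (fun j => by
        rw [← hmean]
        exact hpos j)
    simp only [← hmean, ← hw] at h1
    refine ⟨h1, fun m hm => ?_⟩
    have h2 : ∀ j, Tendsto (fun ε : ℝ => ∑ k, c j k * size (V k) (τ j) ε) (𝓝[>] 0)
        (𝓝 (∑ k, c j k * (-(m j k : ℝ)))) := fun j =>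
      tendsto_finsetSum _ fun k _ =>
        (hlim (τ j) (F k) (V k) (hV k) (m j k) (hm j k)).const_mul (c j k)
    have h3 : ∑ j, (∑ k, c j k * (-(m j k : ℝ))) ^ 2 / (weight (τ j) * meanSq K F (c j)) ≤ 1 := by
      refine le_of_forall_pos_le_add fun η hη => ?_
      exact le_of_tendsto (tendsto_finsetSum _ fun j _ => ((h2 j).pow 2).div_const _) (h1 η hη)
    refine le_trans (le_of_eq (Finset.sum_congr rfl fun j _ => ?_)) h3
    have h6 : ∑ k, c j k * (-(m j k : ℝ)) = -∑ k, c j k * (m j k : ℝ) := by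
      rw [← Finset.sum_neg_distrib]
      exact Finset.sum_congr rfl fun k _ => by ring
    rw [h6, neg_sq]
  · have hopen := ker_act_open K F
    have hr1 : (0 : ℝ) < (rank K F : ℝ) - 1 := by
      have := pOrb_one_lt K F hdeg
      have e : (rank K F : ℝ) = pOrb K F := rfl
      rw [e]
      linarith
    have hb2 : ∀ (t : ℝ) (v : HeightOneSpectrum (𝓞 K)),
        |(-1 : ℝ) * ((fixn K K (σ v) : ℝ) * cz t v)| ≤ Module.finrank ℚ K := by
      intro t v
      rw [abs_mul, abs_neg, abs_one, one_mul]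
      exact hbd t K v
    have hS : ∀ j, SzH (TT (syE p q)) (fun v => ((fixn K F (σ v) : ℝ) - 1) * cz (τ j) v)
        (fun ε => size V (τ j) ε - size V₀ (τ j) ε) := by
      intro j
      exact ((hfin (τ j) F V hV).add ((hfin (τ j) K V₀ hV₀').const_mul (-1))
        (abs_TT (syE p q)) (hbd (τ j) F) (hb2 (τ j))).congr
        (fun v => by rw [fixn_self]; push_cast; ring) (fun ε => by ring)
    have h1 := hts_main hone'' (act K F).ker hopen (fun _ g => (fixn K F g : ℝ) - 1)
      (fun _ g u hu => by rw [fixn_mul_ker K F g u hu]) (fun _ g ρ => by rw [fixn_conj])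
      (fun _ g => by rw [fixn_inv]) σ hσ τ h0 hinj
      (fun j ε => size V (τ j) ε - size V₀ (τ j) ε) hS (fun _ => by
        rw [avR_sub]
        exact hr1)
    simp only [avR_sub, ← hw] at h1
    have hrk : (pOrb K F : ℝ) = rank K F := rfl
    rw [hrk] at h1
    have hsc : ∀ y : J → ℝ, ∑ j, y j ^ 2 / weight (τ j) =
        (rank K F - 1) * ∑ j, y j ^ 2 / (weight (τ j) * (rank K F - 1)) := by
      intro y
      rw [Finset.mul_sum]
      refine Finset.sum_congr rfl fun j _ => ?_
      have e1 : weight (τ j) ≠ 0 := by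
        rw [hw]
        exact (wt_pos _).ne'
      have e2 := hr1.ne'
      field_simp
    have hmain : ∀ η : ℝ, 0 < η → ∀ᶠ ε : ℝ in 𝓝[>] 0,
        ∑ j, (size V (τ j) ε - size V₀ (τ j) ε) ^ 2 / weight (τ j) ≤ (rank K F - 1) + η := by
      intro η hη
      filter_upwards [h1 (η / (rank K F - 1)) (div_pos hη hr1)] with ε hε
      rw [hsc]
      have h2 := mul_le_mul_of_nonneg_left hε hr1.le
      rw [mul_add, mul_one, mul_div_cancel₀ _ hr1.ne'] at h2
      exact h2
    refine ⟨hmain, fun μ m hμ hm => ?_⟩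
    have h2 : ∀ j, Tendsto (fun ε : ℝ => size V (τ j) ε - size V₀ (τ j) ε) (𝓝[>] 0)
        (𝓝 (-(m j : ℝ) - -(μ j : ℝ))) := fun j =>
      (hlim (τ j) F V hV (m j) (hm j)).sub (hlim (τ j) K V₀ hV₀' (μ j) (hμ j))
    have h3 : ∑ j, (-(m j : ℝ) - -(μ j : ℝ)) ^ 2 / weight (τ j) ≤ rank K F - 1 := by
      refine le_of_forall_pos_le_add fun η hη => ?_
      exact le_of_tendsto (tendsto_finsetSum _ fun j _ => ((h2 j).pow 2).div_const _) (hmain η hη)
    refine le_trans (le_of_eq (Finset.sum_congr rfl fun j _ => ?_)) h3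
    congr 1
    ring

end Pool.Agent.Results.MP_7ed9c3_nt.WholeEdge
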